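import Pool.Agent.H695R3.PP.Stmts

set_option autoImplicit false

open MeasureTheory

namespace Pool.Agent.H12R3.PP

open Pool.Agent.H695R3.PP

theorem taskMeas : TaskClosed → TaskClosed2 → TaskMeas := by
  intro h1 h2
  constructor
  · intro L a τ
    have hC : IsClosed {p : (ℝ × (ℤ → ℝ)) × (ℤ → ℝ) |
        a ≤ |p.1.2 0| ∧ (τ ≤ |p.1.2 (L : ℤ)| ∨ τ ≤ |p.1.2 (-(L : ℤ))|)} := by
      have c : ∀ n : ℤ, Continuous (fun p : (ℝ × (ℤ → ℝ)) × (ℤ → ℝ) => |p.1.2 n|) := by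
        intro n
        exact ((continuous_apply n).comp (continuous_snd.comp continuous_fst)).abs
      have e : {p : (ℝ × (ℤ → ℝ)) × (ℤ → ℝ) |
        a ≤ |p.1.2 0| ∧ (τ ≤ |p.1.2 (L : ℤ)| ∨ τ ≤ |p.1.2 (-(L : ℤ))|)} =
        {p | a ≤ |p.1.2 0|} ∩ ({p | τ ≤ |p.1.2 (L : ℤ)|} ∪ {p | τ ≤ |p.1.2 (-(L : ℤ))|}) := by
        ext p; rfl
      rw [e]
      exact (isClosed_le continuous_const (c 0)).inter
        ((isClosed_le continuous_const (c _)).union (isClosed_le continuous_const (c _)))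
    have e : {V : ℤ → ℝ | Bad1 L a τ V} = ⋃ R : ℕ, {V : ℤ → ℝ | ∃ E ψ, |E| ≤ (R : ℝ) ∧
        IsEig V (-(L : ℤ)) L E ψ ∧ ((E, ψ), V) ∈ {p : (ℝ × (ℤ → ℝ)) × (ℤ → ℝ) |
        a ≤ |p.1.2 0| ∧ (τ ≤ |p.1.2 (L : ℤ)| ∨ τ ≤ |p.1.2 (-(L : ℤ))|)}} := by
      ext V
      rw [Set.mem_iUnion]
      constructor
      · rintro ⟨E, ψ, a1, a2, a3⟩
        obtain ⟨R, hR⟩ := exists_nat_ge |E|
        exact ⟨R, E, ψ, hR, a1, a2, a3⟩
      · rintro ⟨R, E, ψ, hR, a1, a2, a3⟩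
        exact ⟨E, ψ, a1, a2, a3⟩
    rw [e]
    exact MeasurableSet.iUnion fun R => (h1 _ _ _ _ hC).measurableSet
  · intro L d
    have hC : ∀ j : ℕ, IsClosed {p : (ℝ × (ℤ → ℝ)) × (ℝ × (ℤ → ℝ)) |
        1 / ((j : ℝ) + 1) ≤ |p.1.1 - p.2.1| ∧ |p.1.1 - p.2.1| ≤ d} := by
      intro j
      have c : Continuous (fun p : (ℝ × (ℤ → ℝ)) × (ℝ × (ℤ → ℝ)) => |p.1.1 - p.2.1|) := by
        exact ((continuous_fst.comp continuous_fst).sub (continuous_fst.comp continuous_snd)).abs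
      exact (isClosed_le continuous_const c).inter (isClosed_le c continuous_const)
    have e : {V : ℤ → ℝ | Bad2 L d V} = ⋃ R : ℕ, ⋃ j : ℕ, {V : ℤ → ℝ | ∃ E ψ E' ψ',
        |E| ≤ (R : ℝ) ∧ |E'| ≤ (R : ℝ) ∧
        IsEig V (-(L : ℤ)) L E ψ ∧ IsEig V (-(L : ℤ)) L E' ψ' ∧
        ((E, ψ), (E', ψ')) ∈ {p : (ℝ × (ℤ → ℝ)) × (ℝ × (ℤ → ℝ)) |
        1 / ((j : ℝ) + 1) ≤ |p.1.1 - p.2.1| ∧ |p.1.1 - p.2.1| ≤ d}} := by
      ext V
      simp only [Set.mem_iUnion]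
      constructor
      · rintro ⟨E, ψ, E', ψ', a1, a2, a3, a4⟩
        obtain ⟨R, hR⟩ := exists_nat_ge (max |E| |E'|)
        obtain ⟨j, hj⟩ := exists_nat_one_div_lt (abs_pos.2 (sub_ne_zero.2 a3))
        exact ⟨R, j, E, ψ, E', ψ', (le_max_left _ _).trans hR, (le_max_right _ _).trans hR,
          a1, a2, hj.le, a4⟩
      · rintro ⟨R, j, E, ψ, E', ψ', b1, b2, a1, a2, a3, a4⟩
        refine ⟨E, ψ, E', ψ', a1, a2, ?_, a4⟩
        rintro rfl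
        simp only [sub_self, abs_zero] at a3
        have : (0 : ℝ) < 1 / ((j : ℝ) + 1) := by positivity
        linarith
    rw [e]
    exact MeasurableSet.iUnion fun R => MeasurableSet.iUnion fun j =>
      (h2 _ _ _ _ _ _ (hC j)).measurableSet

end Pool.Agent.H12R3.PP
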